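import Pool.Agent.Work.MP_8da9ea_nt.SP.Spread
import Pool.Agent.Work.MP_8da9ea_nt.SI.Defs
import Pool.Agent.Work.MP_8da9ea_nt.Bd.B05

/-!
# Independent blocks of toric points over every datum: all but few of them are independent
-/

set_option autoImplicit false

namespace Pool.Agent.Work.MP_8da9ea_nt.SP

open Set Pool.Agent.Work.MP_8da9ea_nt.S Pool.Agent.Work.MP_8da9ea_nt.TG

theorem hasTrdeg_mono {K : IntermediateField ℚ ℂ} {d d' : ℕ} (h : HasTrdeg K d) (hd : d' ≤ d) :
    HasTrdeg K d' := by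
  obtain ⟨x, hx, hi⟩ := h
  exact ⟨fun i => x (Fin.castLE hd i), fun i => hx _, hi.comp _ (Fin.castLE_injective hd)⟩

/-- adding one number raises the transcendence degree by at most one -/
theorem adjoin_one {K : IntermediateField ℚ ℂ} {κ : ℕ} (hK : ¬ HasTrdeg K (κ + 1)) (z : ℂ) :
    ¬ HasTrdeg (IntermediateField.adjoin ℚ ((K : Set ℂ) ∪ {z})) (κ + 1 + 1) := by
  rw [eRk_le_iff] at hK ⊢
  have h1 : ((IntermediateField.adjoin ℚ ((K : Set ℂ) ∪ {z}) : IntermediateField ℚ ℂ) : Set ℂ) ⊆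
      MM.closure ((K : Set ℂ) ∪ {z}) := fun x hx =>
    mem_cl (isAlgebraic_algebraMap (⟨x, hx⟩ : IntermediateField.adjoin ℚ ((K : Set ℂ) ∪ {z})))
  refine (MM.eRk_mono h1).trans ?_
  rw [Matroid.eRk_closure_eq]
  refine (Matroid.eRk_union_le_eRk_add_eRk MM (K : Set ℂ) {z}).trans ?_
  have h2 : MM.eRk {z} ≤ 1 := by
    refine (MM.eRk_le_encard _).trans ?_
    rw [Set.encard_singleton]
  have h3 := add_le_add hK h2
  exact_mod_cast h3

/-- **Blocks.** `a_i b_j` linearly independent, `z` a point at which Schanuel's inequality holds for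
the products: for every field `K` of transcendence degree at most `κ` all but at most `κ + 1` of the
blocks `e^(a_i b_j z)`, `j < m`, are algebraically independent over `K(z)`. -/
theorem blocks {m q κ : ℕ} (a : Fin q → ℂ) (b : Fin m → ℂ) (z : ℂ)
    (halg : ∀ i j, IsAlgebraic ℚ (a i * b j))
    (hS : Sch (fun x : Fin (q * m) => a (finProdFinEquiv.symm x).1 * b (finProdFinEquiv.symm x).2) z)
    (K : IntermediateField ℚ ℂ) (hK : ¬ HasTrdeg K (κ + 1)) :
    ∃ I : Finset (Fin q), q ≤ I.card + (κ + 1) ∧ ∀ i ∈ I,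
      AlgebraicIndependent (IntermediateField.adjoin ℚ ((K : Set ℂ) ∪ {z}))
        (fun j => Complex.exp (a i * b j * z)) := by
  obtain ⟨s, hs⟩ := hS
  have hz : z ∈ IntermediateField.adjoin ℚ ((K : Set ℂ) ∪ {z}) :=
    IntermediateField.subset_adjoin _ _ (Or.inr rfl)
  have hw : ∀ i j, IsAlgebraic (IntermediateField.adjoin ℚ ((K : Set ℂ) ∪ {z})) (a i * b j * z) := by
    intro i j
    have h1 : IsAlgebraic (IntermediateField.adjoin ℚ ((K : Set ℂ) ∪ {z})) (a i * b j) :=
      (halg i j).tower_top _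
    exact h1.mul (isAlgebraic_algebraMap (⟨z, hz⟩ : IntermediateField.adjoin ℚ ((K : Set ℂ) ∪ {z})))
  let E := (finProdFinEquiv : Fin q × Fin m ≃ Fin (q * m))
  refine count_bad (IntermediateField.adjoin ℚ ((K : Set ℂ) ∪ {z})) (adjoin_one hK z)
    (fun i j => Complex.exp (a i * b j * z)) (fun i j => a i * b j * z) hw
    (fun x => Sum.map E.symm E.symm (s (E x))) ?_
  have h1 := hs.comp E E.injective
  have h2 : (fun x : Fin q × Fin m =>
      Sum.elim (fun y : Fin q × Fin m => a y.1 * b y.2 * z)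
        (fun y => Complex.exp (a y.1 * b y.2 * z)) (Sum.map E.symm E.symm (s (E x)))) =
      (fun i => Sum.elim (fun j : Fin (q * m) =>
        a (finProdFinEquiv.symm j).1 * b (finProdFinEquiv.symm j).2 * z)
        (fun j => Complex.exp (a (finProdFinEquiv.symm j).1 * b (finProdFinEquiv.symm j).2 * z))
          (s i)) ∘ E := by
    funext x
    simp only [Function.comp]
    rcases s (E x) with y | y
    · rfl
    · rfl
  rw [h2]
  exact h1

/-- **Q1 for all but few blocks.** -/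
theorem blocks_Q1 {m q κ : ℕ} (a : Fin q → ℂ) (b : Fin m → ℂ) (z : ℂ)
    (halg : ∀ i j, IsAlgebraic ℚ (a i * b j))
    (hS : Sch (fun x : Fin (q * m) => a (finProdFinEquiv.symm x).1 * b (finProdFinEquiv.symm x).2) z)
    (ω₁ ω₂ : ℂ) {s k : ℕ} (t : Fin s → ℂ) (p : Fin k → ℂ)
    (hK : ¬ HasTrdeg (bigField ω₁ ω₂ t p) (κ + 1)) :
    ∃ I : Finset (Fin q), q ≤ I.card + (κ + 1) ∧ ∀ i ∈ I,
      (∀ d, HasTrdeg (bigField ω₁ ω₂ t p) d →
        HasTrdeg (bigField ω₁ ω₂ (Fin.append t fun j => a i * b j * z) p) (d + m)) ∧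
      (Q1 ω₁ ω₂ t p → Q1 ω₁ ω₂ (Fin.append t fun j => a i * b j * z) p) := by
  obtain ⟨I, hI, hi⟩ := blocks a b z halg hS (bigField ω₁ ω₂ t p) hK
  refine ⟨I, hI, fun i hiI => ?_⟩
  have h1 : AlgebraicIndependent (bigField ω₁ ω₂ t p) (fun j => Complex.exp (a i * b j * z)) := by
    have h2 := hi i hiI
    have hle : bigField ω₁ ω₂ t p ≤
        IntermediateField.adjoin ℚ ((bigField ω₁ ω₂ t p : Set ℂ) ∪ {z}) := fun x hx =>
      IntermediateField.subset_adjoin _ _ (Or.inl hx)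
    let _ := (IntermediateField.inclusion hle).toRingHom.toAlgebra
    have : IsScalarTower (bigField ω₁ ω₂ t p)
      (IntermediateField.adjoin ℚ ((bigField ω₁ ω₂ t p : Set ℂ) ∪ {z})) ℂ :=
        IsScalarTower.of_algebraMap_eq fun _ => rfl
    exact h2.restrictScalars (IntermediateField.inclusion hle).toRingHom.injective
  have h3 : ∀ d, HasTrdeg (bigField ω₁ ω₂ t p) d →
      HasTrdeg (bigField ω₁ ω₂ (Fin.append t fun j => a i * b j * z) p) (d + m) := fun d hd =>
    bigField_add ω₁ ω₂ t p (fun j => a i * b j * z) h1 d hd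
  refine ⟨h3, fun hQ => ?_⟩
  have h2 := h3 _ hQ
  refine hasTrdeg_mono h2 ?_
  have h4 := tDim_append t fun j => a i * b j * z
  omega

end Pool.Agent.Work.MP_8da9ea_nt.SP
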