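import Mathlib
import Pool.Agent.Work.MP_8da9ea_nt.Stmt5

/-!
# The spread lemma: independent blocks of exponentials over an arbitrary field
-/

set_option autoImplicit false

namespace Pool.Agent.Work.MP_8da9ea_nt.SP

open Set

/-- the matroid of algebraic independence -/
noncomputable abbrev MM : Matroid ℂ := AlgebraicIndependent.matroid ℚ ℂ

theorem mem_cl {s : Set ℂ} {x : ℂ}
    (h : IsAlgebraic (IntermediateField.adjoin ℚ s) x) : x ∈ MM.closure s := by
  rw [AlgebraicIndependent.matroid_closure_eq]
  exact IntermediateField.isAlgebraic_adjoin_iff.mp h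

theorem eRk_le_iff {K : IntermediateField ℚ ℂ} {κ : ℕ} :
    ¬ HasTrdeg K (κ + 1) ↔ MM.eRk (K : Set ℂ) ≤ κ := by
  rw [← not_iff_not, not_not, not_le]
  constructor
  · rintro ⟨x, hx, hi⟩
    have hI : MM.Indep (range x) := by
      rw [AlgebraicIndependent.matroid_indep_iff]
      exact hi.to_subtype_range
    have h1 := hI.encard_le_eRk_of_subset (show range x ⊆ (K : Set ℂ) by
      rintro _ ⟨i, rfl⟩
      exact hx i)
    have h3 : (range x).encard = ((κ + 1 : ℕ) : ℕ∞) := by
      rw [← Set.image_univ, hi.injective.encard_image, Set.encard_univ,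
        ENat.card_eq_coe_fintype_card, Fintype.card_fin]
    rw [h3] at h1
    refine lt_of_lt_of_le ?_ h1
    exact_mod_cast Nat.lt_succ_self κ
  · intro h
    have h1 : ((κ + 1 : ℕ) : ℕ∞) ≤ MM.eRk (K : Set ℂ) := by
      have := Order.add_one_le_of_lt h
      exact_mod_cast this
    obtain ⟨I, hIK, hI, hc⟩ := Matroid.le_eRk_iff.mp h1
    have hfin : I.Finite := by
      apply Set.finite_of_encard_eq_coe hc
    have hcard : Nat.card I = κ + 1 := by
      have := hfin.cast_ncard_eq
      rw [hc] at this
      have h2 : I.ncard = κ + 1 := by exact_mod_cast this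
      rw [← h2]
      rfl
    have : Finite I := hfin
    let f : Fin (κ + 1) ≃ I := (Finite.equivFinOfCardEq hcard).symm
    rw [AlgebraicIndependent.matroid_indep_iff] at hI
    exact ⟨fun i => (f i : ℂ), fun i => hIK (f i).2, hI.comp f f.injective⟩

theorem alg_mono {K L : IntermediateField ℚ ℂ} (h : K ≤ L) {x : ℂ} (hx : IsAlgebraic K x) :
    IsAlgebraic L x := by
  let _ := (IntermediateField.inclusion h).toRingHom.toAlgebra
  have : IsScalarTower K L ℂ := IsScalarTower.of_algebraMap_eq fun _ => rfl
  exact hx.tower_top L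

theorem mem_cl_field {K : IntermediateField ℚ ℂ} {x : ℂ} (hx : IsAlgebraic K x) :
    x ∈ MM.closure (K : Set ℂ) :=
  mem_cl (alg_mono (fun _ hy => IntermediateField.subset_adjoin ℚ _ hy) hx)

/-- a family which is not independent over `K` contains a dependent member -/
theorem exists_dep {m : ℕ} (K : IntermediateField ℚ ℂ) (e : Fin m → ℂ)
    (h : ¬ AlgebraicIndependent K e) : ∃ j, e j ∈ MM.closure ((K : Set ℂ) ∪ e '' {j}ᶜ) := by
  by_contra hcon
  push Not at hcon
  apply h
  refine algebraicIndependent_of_finite_type' (algebraMap K ℂ).injective ?_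
  intro t _ _ j hj halg
  apply hcon j
  have h1 : IsAlgebraic (IntermediateField.adjoin K (e '' t)) (e j) :=
    IntermediateField.isAlgebraic_adjoin_iff.mpr halg
  have h2 : IsAlgebraic (IntermediateField.adjoin ℚ ((K : Set ℂ) ∪ e '' t)) (e j) := by
    have h3 := IntermediateField.restrictScalars_adjoin ℚ K (e '' t)
    have h4 : IsAlgebraic (IntermediateField.restrictScalars ℚ
      (IntermediateField.adjoin K (e '' t))) (e j) := h1
    exact h3 ▸ h4
  refine MM.closure_subset_closure ?_ (mem_cl h2)
  apply union_subset_union_right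
  apply image_mono
  intro i hi hij
  rw [mem_singleton_iff] at hij
  subst hij
  exact hj hi

/-- THE SPREAD LEMMA. -/
theorem count_bad {m q κ : ℕ} (K : IntermediateField ℚ ℂ) (hK : ¬ HasTrdeg K (κ + 1))
    (e w : Fin q → Fin m → ℂ) (hw : ∀ i j, IsAlgebraic K (w i j))
    (s : Fin q × Fin m → (Fin q × Fin m) ⊕ (Fin q × Fin m))
    (hs : AlgebraicIndependent ℚ fun x =>
      Sum.elim (fun y : Fin q × Fin m => w y.1 y.2) (fun y => e y.1 y.2) (s x)) :
    ∃ I : Finset (Fin q), q ≤ I.card + κ ∧ ∀ i ∈ I, AlgebraicIndependent K (e i) := by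
  classical
  rw [eRk_le_iff] at hK
  let I : Finset (Fin q) := Finset.univ.filter fun i => AlgebraicIndependent K (e i)
  let B : Finset (Fin q) := Finset.univ.filter fun i => ¬ AlgebraicIndependent K (e i)
  have hIB : I.card + B.card = q := by
    have := Finset.card_filter_add_card_filter_not (s := (Finset.univ : Finset (Fin q)))
      (fun i => AlgebraicIndependent K (e i))
    rw [Finset.card_univ, Fintype.card_fin] at this
    exact this
  refine ⟨I, ?_, fun i hi => (Finset.mem_filter.mp hi).2⟩
  suffices h : B.card ≤ κ by omega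
  have hB : ∀ i : B, ∃ j, e i j ∈ MM.closure ((K : Set ℂ) ∪ e i '' {j}ᶜ) := fun i =>
    exists_dep K (e i) (Finset.mem_filter.mp i.2).2
  choose jj hjj using hB
  let P : Finset (Fin q × Fin m) := B.attach.image fun i => (i.1, jj i)
  have hP : P.card = B.card := by
    rw [Finset.card_image_of_injective, Finset.card_attach]
    intro i i' h
    exact Subtype.ext (congrArg Prod.fst h)
  let Y : Set ℂ := (fun y : Fin q × Fin m => e y.1 y.2) '' ((Pᶜ : Finset (Fin q × Fin m)) : Set _)
  have hYc : Y.encard ≤ ((q * m - B.card : ℕ) : ℕ∞) := by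
    refine (Set.encard_image_le _ _).trans ?_
    rw [Set.encard_coe_eq_coe_finsetCard, Finset.card_compl, hP, Fintype.card_prod,
      Fintype.card_fin, Fintype.card_fin]
  have hsubK : (K : Set ℂ) ∪ Y ⊆ MM.closure ((K : Set ℂ) ∪ Y) :=
    MM.subset_closure _ (subset_univ _)
  have hmem : ∀ i j, (i, j) ∉ P → e i j ∈ Y := fun i j h =>
    ⟨(i, j), by simpa using h, rfl⟩
  have he : ∀ i j, e i j ∈ MM.closure ((K : Set ℂ) ∪ Y) := by
    intro i j
    by_cases h : (i, j) ∈ P
    · obtain ⟨i', -, hi'⟩ := Finset.mem_image.mp h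
      have h1 : i'.1 = i := congrArg Prod.fst hi'
      have h2 : jj i' = j := congrArg Prod.snd hi'
      subst h1
      subst h2
      refine MM.closure_subset_closure ?_ (hjj i')
      apply union_subset_union_right
      rintro _ ⟨j', hj', rfl⟩
      apply hmem
      intro h3
      obtain ⟨i'', -, hi''⟩ := Finset.mem_image.mp h3
      have h4 : i''.1 = i'.1 := congrArg Prod.fst hi''
      have h5 : i'' = i' := Subtype.ext h4
      have h6 : jj i'' = j' := congrArg Prod.snd hi''
      rw [h5] at h6
      exact hj' h6.symm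
    · exact hsubK (Or.inr (hmem i j h))
  have hw' : ∀ i j, w i j ∈ MM.closure ((K : Set ℂ) ∪ Y) := fun i j =>
    MM.closure_subset_closure subset_union_left (mem_cl_field (hw i j))
  set F : Fin q × Fin m → ℂ := fun x =>
    Sum.elim (fun y : Fin q × Fin m => w y.1 y.2) (fun y => e y.1 y.2) (s x) with hF
  have hI : MM.Indep (range F) := by
    rw [AlgebraicIndependent.matroid_indep_iff]
    exact hs.to_subtype_range
  have hsub : range F ⊆ MM.closure ((K : Set ℂ) ∪ Y) := by
    rintro _ ⟨x, rfl⟩
    simp only [hF]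
    rcases s x with y | y
    · exact hw' _ _
    · exact he _ _
  have h1 := hI.encard_le_eRk_of_subset hsub
  rw [Matroid.eRk_closure_eq] at h1
  have h3 : (range F).encard = ((q * m : ℕ) : ℕ∞) := by
    rw [← Set.image_univ, hs.injective.encard_image, Set.encard_univ,
      ENat.card_eq_coe_fintype_card, Fintype.card_prod, Fintype.card_fin, Fintype.card_fin]
  have h4 := (Matroid.eRk_union_le_eRk_add_eRk MM (K : Set ℂ) Y).trans
    (add_le_add hK ((MM.eRk_le_encard Y).trans hYc))
  have h5 := h1.trans h4
  rw [h3] at h5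
  have h6 : q * m ≤ κ + (q * m - B.card) := by exact_mod_cast h5
  have h7 : B.card ≤ q * m := by
    rw [← hP]
    refine (Finset.card_le_univ _).trans ?_
    rw [Fintype.card_prod, Fintype.card_fin, Fintype.card_fin]
  omega

end Pool.Agent.Work.MP_8da9ea_nt.SP
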